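import Mathlib
import Pool.Agent.Helper34.KreinMore

/-!
# Measurable Hermitian functions: the sharp Jordan decomposition

Let `D` be a symmetric open set of real numbers, for example `(-A, A)` or `ℝ`, and let `‖f‖_D` be the
norm of the functional `Φ_f` on the exponential sums with frequencies in `D`.  Every Lebesgue
measurable Hermitian `f` with `‖f‖_D < ∞` is on `D` equal to `f₊ - f₋`, where

* `f₊ = p₁ + p₂` and `f₋ = n₁ + n₂` are measurable positive definite functions on the WHOLE line,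
* `p₁`, `n₁` are continuous, `p₂`, `n₂` vanish almost everywhere, and all four are positive definite,
* `‖f‖_D = f₊(0) + f₋(0)`, and `f₊ - f₋` is an extension of `f` to the line with the same norm.

So the measurable functions have a Jordan decomposition with the sharp norm, simultaneously a
decomposition into a continuous part and a part which is zero almost everywhere, for which the norms
add up.
-/

set_option autoImplicit false

open MeasureTheory

namespace Pool.Agent.Results.MP_54c4ce_an.SharpJordan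

/-- Value at `t` of the exponential sum `∑ c_x e^{i x t}` (finite sum). -/
noncomputable def apEval (c : ℝ →₀ ℂ) (t : ℝ) : ℂ :=
  ∑ x ∈ c.support, c x * Complex.exp (Complex.I * (x : ℂ) * (t : ℂ))

/-- The functional `Φ_f`, sending `∑ c_x e^{i x t}` to `∑ c_x f(x)`. -/
noncomputable def functional (f : ℝ → ℂ) (c : ℝ →₀ ℂ) : ℂ :=
  ∑ x ∈ c.support, c x * f x

/-- The nonnegative numbers `C` with `|Φ_f(p)| ≤ C M` for all exponential sums `p` with frequencies
in `D` and all upper bounds `M` of `|p|` on the line. -/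
def bounds (D : Set ℝ) (f : ℝ → ℂ) : Set ℝ :=
  {C | 0 ≤ C ∧ ∀ c : ℝ →₀ ℂ, (∀ x ∈ c.support, x ∈ D) →
    ∀ M : ℝ, (∀ t : ℝ, ‖apEval c t‖ ≤ M) → ‖functional f c‖ ≤ C * M}

/-- `f` restricted to `D` belongs to `R_D`: the functional `Φ_f` is bounded for the sup norm on
exponential sums with frequencies in `D`. -/
def MemR (D : Set ℝ) (f : ℝ → ℂ) : Prop := (bounds D f).Nonempty

/-- `‖f‖_D`, the norm of the functional `Φ_f`: the least number in `bounds D f`. -/
noncomputable def normR (D : Set ℝ) (f : ℝ → ℂ) : ℝ := sInf (bounds D f)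

/-- `f` is Hermitian on `D`. -/
def Hermitian (D : Set ℝ) (f : ℝ → ℂ) : Prop :=
  ∀ x ∈ D, f (-x) = (starRingEnd ℂ) (f x)

/-- `f` belongs to the cone `P_D`: it is in `R_D` and `Φ_f(p)` is a nonnegative real number
whenever `p` is real and nonnegative on the line, with frequencies in `D`. -/
def MemP (D : Set ℝ) (f : ℝ → ℂ) : Prop :=
  MemR D f ∧ ∀ c : ℝ →₀ ℂ, (∀ x ∈ c.support, x ∈ D) →
    (∀ t : ℝ, (apEval c t).im = 0 ∧ 0 ≤ (apEval c t).re) →
      (functional f c).im = 0 ∧ 0 ≤ (functional f c).re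

open Pool.Agent.Helper34.Krein

/-- `‖f‖_D` is attained. -/
theorem normR_mem {D : Set ℝ} {f : ℝ → ℂ} (hf : MemR D f) : normR D f ∈ bounds D f := by
  have hbdd : BddBelow (bounds D f) := ⟨0, fun C hC => hC.1⟩
  refine ⟨le_csInf hf fun C hC => hC.1, ?_⟩
  intro c hc M hM
  have hM0 : 0 ≤ M := (norm_nonneg _).trans (hM 0)
  rcases hM0.eq_or_lt with h0 | h0
  · obtain ⟨C, hC⟩ := hf
    have h1 := hC.2 c hc M hM
    rw [← h0, mul_zero] at h1 ⊢
    exact h1
  · have h1 : ‖functional f c‖ / M ≤ normR D f := by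
      refine le_csInf hf ?_
      intro C hC
      rw [div_le_iff₀ h0]
      exact hC.2 c hc M hM
    rwa [div_le_iff₀ h0] at h1

/-- `‖f‖_D` is the least element of `bounds D f`. -/
theorem isLeast_normR {D : Set ℝ} {f : ℝ → ℂ} (hf : MemR D f) :
    IsLeast (bounds D f) (normR D f) :=
  ⟨normR_mem hf, fun _ hC => csInf_le ⟨0, fun _ h => h.1⟩ hC⟩

theorem coeff_bound (P : PosFun) (w : P.Hil) (c : ℝ →₀ ℂ) (M : ℝ)
    (hM : ∀ t : ℝ, ‖apEval c t‖ ≤ M) :
    ‖functional (fun x => inner ℂ w (P.rep x w)) c‖ ≤ ‖w‖ ^ 2 * M := by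
  have h1 := norm_Phi_coeff_le P.contractive w w c M (by
    intro t
    rw [ap_apply]
    exact hM t)
  rw [Phi_apply] at h1
  rw [sq]
  exact h1

theorem memP_of_vector (P : PosFun) (w : P.Hil) :
    MemP Set.univ (fun x => inner ℂ w (P.rep x w)) := by
  refine ⟨⟨‖w‖ ^ 2, sq_nonneg _, fun c _ M hM => coeff_bound P w c M hM⟩, fun c _ hc => ?_⟩
  have h1 := P.inner_mulH_nonneg (ap c) (by
    intro t
    rw [ap_apply]
    exact hc t) w
  rw [← P.Phi_inner, Phi_apply] at h1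
  exact h1

theorem functional_add (f g : ℝ → ℂ) (c : ℝ →₀ ℂ) :
    functional (fun x => f x + g x) c = functional f c + functional g c := by
  unfold functional
  rw [← Finset.sum_add_distrib]
  exact Finset.sum_congr rfl fun x _ => mul_add _ _ _

theorem functional_sub (f g : ℝ → ℂ) (c : ℝ →₀ ℂ) :
    functional (fun x => f x - g x) c = functional f c - functional g c := by
  unfold functional
  rw [← Finset.sum_sub_distrib]
  exact Finset.sum_congr rfl fun x _ => mul_sub _ _ _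

/-- Sharp Jordan decomposition of the measurable Hermitian functions. -/
theorem result (D : Set ℝ) (hD : IsOpen D) (hsym : ∀ x ∈ D, -x ∈ D) (f : ℝ → ℂ) (hf : MemR D f)
    (hfm : AEMeasurable f (volume.restrict D)) (hher : Hermitian D f) :
    ∃ p₁ p₂ n₁ n₂ : ℝ → ℂ,
      (MemP Set.univ p₁ ∧ Continuous p₁) ∧ (MemP Set.univ p₂ ∧ ∀ᵐ x : ℝ, p₂ x = 0) ∧
      (MemP Set.univ n₁ ∧ Continuous n₁) ∧ (MemP Set.univ n₂ ∧ ∀ᵐ x : ℝ, n₂ x = 0) ∧
      (∀ x ∈ D, f x = (p₁ x + p₂ x) - (n₁ x + n₂ x)) ∧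
      ((normR D f : ℝ) : ℂ) = (p₁ 0 + p₂ 0) + (n₁ 0 + n₂ 0) ∧
      normR D f = normR Set.univ (fun x => (p₁ x + p₂ x) - (n₁ x + n₂ x)) ∧
      IsLeast (bounds D f) (normR D f) := by
  have hleast := isLeast_normR hf
  obtain ⟨hC0, hC⟩ := hleast.1
  set C : ℝ := normR D f with hCdef
  obtain ⟨P, hP1, hPf⟩ := exists_posFun D f C (by
      intro h hh M hM
      rw [Phi_apply]
      refine hC h ?_ M ?_
      · intro x hx
        exact (Finsupp.mem_supported ℂ h).1 hh hx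
      · intro t
        have := hM t
        rw [ap_apply] at this
        exact this)
  obtain ⟨v, hv1, hrep⟩ := P.exists_vector D f hPf
  have hπ := P.isRep_rep
  have hone : ‖P.one‖ ^ 2 ≤ C := by
    rw [P.norm_one_sq]
    exact hP1
  have hF : AEStronglyMeasurable (fun l : ℝ => inner ℂ v (P.rep l P.one))
      (volume.restrict D) := by
    refine hfm.aestronglyMeasurable.congr ?_
    filter_upwards [self_mem_ae_restrict hD.measurableSet] with x hx
    exact hrep x hx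
  obtain ⟨uc, u0, u2, hsum, huc, hu0, hunorm, hz⟩ :=
    hπ.decomposition P.one v hD hF
  have hc1 := (isClosed_Hc P.rep).completeSpace_coe
  have hc0 := (isClosed_H0 P.rep).completeSpace_coe
  set vc := (Hc P.rep).starProjection v with hvcdef
  have hvc : vc ∈ Hc P.rep := Submodule.starProjection_apply_mem _ _
  have hvc' : v - vc ∈ (Hc P.rep)ᗮ := Submodule.sub_starProjection_mem_orthogonal v
  set v0 := (H0 P.rep).starProjection v with hv0def
  have hv0 : v0 ∈ H0 P.rep := Submodule.starProjection_apply_mem _ _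
  have hv0' : v - v0 ∈ (H0 P.rep)ᗮ := Submodule.sub_starProjection_mem_orthogonal v
  -- norms
  have hucu0 : (inner ℂ uc u0 : ℂ) = 0 := hπ.inner_Hc_H0 huc hu0
  have hvcv0 : (inner ℂ vc v0 : ℂ) = 0 := hπ.inner_Hc_H0 hvc hv0
  have hn_u : ‖uc‖ ^ 2 + ‖u0‖ ^ 2 ≤ C := by
    have h1 := norm_add_sq_eq_norm_sq_add_norm_sq_of_inner_eq_zero uc u0 hucu0
    nlinarith [sq_nonneg ‖u2‖, h1, hunorm, hone]
  have hn_v : ‖vc‖ ^ 2 + ‖v0‖ ^ 2 ≤ C := by
    have h1 := norm_add_sq_eq_norm_sq_add_norm_sq_of_inner_eq_zero vc v0 hvcv0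
    have h2 : (inner ℂ (vc + v0) (v - (vc + v0)) : ℂ) = 0 := by
      have e1 : (inner ℂ vc (v - vc) : ℂ) = 0 := (Submodule.mem_orthogonal _ _).1 hvc' vc hvc
      have e2 : (inner ℂ v0 (v - v0) : ℂ) = 0 := (Submodule.mem_orthogonal _ _).1 hv0' v0 hv0
      have e3 : (inner ℂ v0 vc : ℂ) = 0 := by
        rw [← inner_conj_symm, hvcv0, map_zero]
      have e4 : (inner ℂ vc (v - (vc + v0)) : ℂ) = 0 := by
        rw [show v - (vc + v0) = (v - vc) - v0 by abel, inner_sub_right, e1, hvcv0, sub_zero]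
      have e5 : (inner ℂ v0 (v - (vc + v0)) : ℂ) = 0 := by
        rw [show v - (vc + v0) = (v - v0) - vc by abel, inner_sub_right, e2, e3, sub_zero]
      rw [inner_add_left, e4, e5, add_zero]
    have h3 := norm_add_sq_eq_norm_sq_add_norm_sq_of_inner_eq_zero (vc + v0) (v - (vc + v0)) h2
    have e : vc + v0 + (v - (vc + v0)) = v := by abel
    rw [e] at h3
    have h4 : ‖v‖ ^ 2 ≤ ‖P.one‖ ^ 2 := by gcongr
    nlinarith [sq_nonneg ‖v - (vc + v0)‖, h1, h3, hone]
  -- the coefficient in terms of good vectors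
  have hcoef : ∀ x ∈ D, f x = inner ℂ vc (P.rep x uc) + inner ℂ v0 (P.rep x u0) := by
    intro x hx
    have e1 : (inner ℂ v (P.rep x uc) : ℂ) = inner ℂ vc (P.rep x uc) := by
      have h1 := (Submodule.mem_orthogonal' _ _).1 hvc' _ (hπ.Hc_invariant huc x)
      rw [inner_sub_left, sub_eq_zero] at h1
      exact h1
    have e2 : (inner ℂ v (P.rep x u0) : ℂ) = inner ℂ v0 (P.rep x u0) := by
      have h1 := (Submodule.mem_orthogonal' _ _).1 hv0' _ (hπ.H0_invariant hu0 x)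
      rw [inner_sub_left, sub_eq_zero] at h1
      exact h1
    rw [hrep x hx, hsum, map_add (P.rep x) (uc + u0) u2, map_add (P.rep x) uc u0,
      inner_add_right, inner_add_right, hz x hx, e1, e2, add_zero]
  have hcoef' : ∀ x ∈ D, f x = inner ℂ uc (P.rep x vc) + inner ℂ u0 (P.rep x v0) := by
    intro x hx
    have h1 := hcoef (-x) (hsym x hx)
    rw [hher x hx] at h1
    have h2 := congrArg (starRingEnd ℂ) h1
    rw [Complex.conj_conj, map_add, inner_conj_symm, inner_conj_symm] at h2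
    rw [h2, hπ.inner_left, hπ.inner_left, neg_neg]
  -- the four functions
  have hpol : ∀ (a b : P.Hil) (x : ℝ),
      (inner ℂ ((1 / 2 : ℂ) • a + (1 / 2 : ℂ) • b)
        (P.rep x ((1 / 2 : ℂ) • a + (1 / 2 : ℂ) • b)) : ℂ) -
      inner ℂ ((1 / 2 : ℂ) • a + (-1 / 2 : ℂ) • b)
        (P.rep x ((1 / 2 : ℂ) • a + (-1 / 2 : ℂ) • b)) =
      (1 / 2 : ℂ) * (inner ℂ a (P.rep x b) + inner ℂ b (P.rep x a)) := by
    intro a b x
    simp only [map_add, map_smul, inner_add_left, inner_add_right, inner_smul_left,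
      inner_smul_right]
    simp only [map_div₀, map_one, map_ofNat, map_neg]
    ring
  have hpar : ∀ (a b : P.Hil), ‖(1 / 2 : ℂ) • a + (1 / 2 : ℂ) • b‖ ^ 2 +
      ‖(1 / 2 : ℂ) • a + (-1 / 2 : ℂ) • b‖ ^ 2 = (‖a‖ ^ 2 + ‖b‖ ^ 2) / 2 := by
    intro a b
    have h1 := parallelogram_law_with_norm ℂ ((1 / 2 : ℂ) • a) ((1 / 2 : ℂ) • b)
    have e1 : (1 / 2 : ℂ) • a + (-1 / 2 : ℂ) • b = (1 / 2 : ℂ) • a - (1 / 2 : ℂ) • b := by
      rw [sub_eq_add_neg, ← neg_smul]
      congr 2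
      norm_num
    rw [e1]
    have e2 : ‖(1 / 2 : ℂ) • a‖ = ‖a‖ / 2 := by
      rw [norm_smul]
      norm_num
      ring
    have e3 : ‖(1 / 2 : ℂ) • b‖ = ‖b‖ / 2 := by
      rw [norm_smul]
      norm_num
      ring
    rw [e2, e3] at h1
    nlinarith [h1]
  have hzero : ∀ w : P.Hil, (inner ℂ w (P.rep 0 w) : ℂ) = ((‖w‖ ^ 2 : ℝ) : ℂ) := by
    intro w
    rw [hπ.zero, inner_self_eq_norm_sq_to_K]
    push_cast
    rfl
  have hcont : ∀ w ∈ Hc P.rep, Continuous fun x : ℝ => (inner ℂ w (P.rep x w) : ℂ) := by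
    intro w hw
    have h3 : Continuous fun l : ℝ => P.rep l w := hw
    exact continuous_const.inner h3
  have hae : ∀ w ∈ H0 P.rep, ∀ᵐ x : ℝ, (inner ℂ w (P.rep x w) : ℂ) = 0 := fun w hw => hw w
  have hgood : ∀ (K : Submodule ℂ P.Hil) (r : ℂ), ∀ a ∈ K, ∀ b ∈ K,
      (1 / 2 : ℂ) • a + r • b ∈ K := fun K r a ha b hb =>
    Submodule.add_mem _ (Submodule.smul_mem _ _ ha) (Submodule.smul_mem _ _ hb)
  set wpc := (1 / 2 : ℂ) • uc + (1 / 2 : ℂ) • vc with hwpc
  set wnc := (1 / 2 : ℂ) • uc + (-1 / 2 : ℂ) • vc with hwnc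
  set wp0 := (1 / 2 : ℂ) • u0 + (1 / 2 : ℂ) • v0 with hwp0
  set wn0 := (1 / 2 : ℂ) • u0 + (-1 / 2 : ℂ) • v0 with hwn0
  have heq : ∀ x ∈ D, f x = ((inner ℂ wpc (P.rep x wpc) : ℂ) + inner ℂ wp0 (P.rep x wp0)) -
      ((inner ℂ wnc (P.rep x wnc) : ℂ) + inner ℂ wn0 (P.rep x wn0)) := by
    intro x hx
    have h1 := hpol uc vc x
    have h2 := hpol u0 v0 x
    have h3 := hcoef x hx
    have h4 := hcoef' x hx
    rw [← hwpc, ← hwnc] at h1
    rw [← hwp0, ← hwn0] at h2
    linear_combination (1 / 2 : ℂ) * h3 + (1 / 2 : ℂ) * h4 - h1 - h2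
  have htot : ‖wpc‖ ^ 2 + ‖wnc‖ ^ 2 + (‖wp0‖ ^ 2 + ‖wn0‖ ^ 2) ≤ C := by
    have h1 := hpar uc vc
    have h2 := hpar u0 v0
    rw [← hwpc, ← hwnc] at h1
    rw [← hwp0, ← hwn0] at h2
    linarith
  have hbound : ‖wpc‖ ^ 2 + ‖wnc‖ ^ 2 + (‖wp0‖ ^ 2 + ‖wn0‖ ^ 2) ∈ bounds Set.univ
      (fun x => ((inner ℂ wpc (P.rep x wpc) : ℂ) + inner ℂ wp0 (P.rep x wp0)) -
          ((inner ℂ wnc (P.rep x wnc) : ℂ) + inner ℂ wn0 (P.rep x wn0))) := by
    refine ⟨by positivity, ?_⟩
    intro c _ M hM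
    rw [functional_sub, functional_add, functional_add]
    have b1 := coeff_bound P wpc c M hM
    have b2 := coeff_bound P wp0 c M hM
    have b3 := coeff_bound P wnc c M hM
    have b4 := coeff_bound P wn0 c M hM
    refine (norm_sub_le _ _).trans ?_
    have c1 := norm_add_le (functional (fun x => (inner ℂ wpc (P.rep x wpc) : ℂ)) c)
      (functional (fun x => (inner ℂ wp0 (P.rep x wp0) : ℂ)) c)
    have c2 := norm_add_le (functional (fun x => (inner ℂ wnc (P.rep x wnc) : ℂ)) c)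
      (functional (fun x => (inner ℂ wn0 (P.rep x wn0) : ℂ)) c)
    linarith
  have hsub : ∀ E ∈ bounds Set.univ
      (fun x => ((inner ℂ wpc (P.rep x wpc) : ℂ) + inner ℂ wp0 (P.rep x wp0)) -
          ((inner ℂ wnc (P.rep x wnc) : ℂ) + inner ℂ wn0 (P.rep x wn0))), E ∈ bounds D f := by
    intro E hE
    refine ⟨hE.1, ?_⟩
    intro c hc M hM
    have h1 := hE.2 c (fun x _ => Set.mem_univ x) M hM
    have h0 : functional f c =
        functional (fun x => ((inner ℂ wpc (P.rep x wpc) : ℂ) + inner ℂ wp0 (P.rep x wp0)) -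
          ((inner ℂ wnc (P.rep x wnc) : ℂ) + inner ℂ wn0 (P.rep x wn0))) c := by
      unfold functional
      refine Finset.sum_congr rfl fun x hx => ?_
      rw [heq x (hc x hx)]
    rw [h0]
    exact h1
  have hlow : C ≤ ‖wpc‖ ^ 2 + ‖wnc‖ ^ 2 + (‖wp0‖ ^ 2 + ‖wn0‖ ^ 2) :=
    hleast.2 (hsub _ hbound)
  have hext : C = normR Set.univ
      (fun x => ((inner ℂ wpc (P.rep x wpc) : ℂ) + inner ℂ wp0 (P.rep x wp0)) -
          ((inner ℂ wnc (P.rep x wnc) : ℂ) + inner ℂ wn0 (P.rep x wn0))) := by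
    have h1 := isLeast_normR ⟨_, hbound⟩
    refine le_antisymm (hleast.2 (hsub _ h1.1)) ?_
    exact (h1.2 hbound).trans htot
  refine ⟨fun x => inner ℂ wpc (P.rep x wpc), fun x => inner ℂ wp0 (P.rep x wp0),
    fun x => inner ℂ wnc (P.rep x wnc), fun x => inner ℂ wn0 (P.rep x wn0),
    ⟨memP_of_vector P _, hcont _ (hgood _ _ _ huc _ hvc)⟩,
    ⟨memP_of_vector P _, hae _ (hgood _ _ _ hu0 _ hv0)⟩,
    ⟨memP_of_vector P _, hcont _ (hgood _ _ _ huc _ hvc)⟩,
    ⟨memP_of_vector P _, hae _ (hgood _ _ _ hu0 _ hv0)⟩, heq, ?_, hext, hleast⟩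
  have h5 : C = ‖wpc‖ ^ 2 + ‖wnc‖ ^ 2 + (‖wp0‖ ^ 2 + ‖wn0‖ ^ 2) := le_antisymm hlow htot
  simp only [hzero]
  rw [h5]
  push_cast
  ring

end Pool.Agent.Results.MP_54c4ce_an.SharpJordan
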